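import Pool.Agent.H16.FW.Tab

/-!
# PROJECT FW: kernel check, part 0
-/

set_option autoImplicit false

namespace Pool.Agent.H16.FW

theorem k_0_0 : lpn (chk TL 504 5) (bas 0) 17 (TL.drop 0) = true := by decide +kernel

theorem k_0_17 : lpn (chk TL 504 5) (bas 0) 15 (TL.drop 17) = true := by decide +kernel

theorem k_0_32 : lpn (chk TL 504 5) (bas 0) 14 (TL.drop 32) = true := by decide +kernel

end Pool.Agent.H16.FW
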