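import Pool.Agent.H16.FW.Tab

/-!
# PROJECT FW: kernel check, part 10
-/

set_option autoImplicit false

namespace Pool.Agent.H16.FW

theorem k_0_365 : lpn (chk TL 504 5) (bas 0) 6 (TL.drop 365) = true := by decide +kernel

theorem k_0_371 : lpn (chk TL 504 5) (bas 0) 26 (TL.drop 371) = true := by decide +kernel

theorem k_0_397 : lpn (chk TL 504 5) (bas 0) 30 (TL.drop 397) = true := by decide +kernel

end Pool.Agent.H16.FW
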