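import Pool.Agent.H16.FW.Tab

/-!
# PROJECT FW: kernel check, part 12
-/

set_option autoImplicit false

namespace Pool.Agent.H16.FW

theorem k_1_137 : lpn (chk TL 504 5) (bas 1) 106 (TL.drop 137) = true := by decide +kernel

theorem k_1_243 : lpn (chk TL 504 5) (bas 1) 115 (TL.drop 243) = true := by decide +kernel

theorem k_1_358 : lpn (chk TL 504 5) (bas 1) 146 (TL.drop 358) = true := by decide +kernel

end Pool.Agent.H16.FW
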