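import Pool.Agent.H16.FW.Tab

/-!
# PROJECT FW: kernel check, part 13
-/

set_option autoImplicit false

namespace Pool.Agent.H16.FW

theorem k_2_0 : lpn (chk TL 504 5) (bas 2) 137 (TL.drop 0) = true := by decide +kernel

theorem k_2_137 : lpn (chk TL 504 5) (bas 2) 96 (TL.drop 137) = true := by decide +kernel

theorem k_2_233 : lpn (chk TL 504 5) (bas 2) 119 (TL.drop 233) = true := by decide +kernel

end Pool.Agent.H16.FW
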