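import Pool.Agent.H16.FW.Tab

/-!
# PROJECT FW: kernel check, part 15
-/

set_option autoImplicit false

namespace Pool.Agent.H16.FW

theorem k_4_232 : lpn (chk TL 504 5) (bas 4) 118 (TL.drop 232) = true := by decide +kernel

theorem k_4_350 : lpn (chk TL 504 5) (bas 4) 154 (TL.drop 350) = true := by decide +kernel

theorem k_8_0 : lpn (chk TL 504 5) (bas 8) 131 (TL.drop 0) = true := by decide +kernel

end Pool.Agent.H16.FW
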