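import Pool.Agent.H16.FW.Tab

/-!
# PROJECT FW: kernel check, part 3
-/

set_option autoImplicit false

namespace Pool.Agent.H16.FW

theorem k_0_151 : lpn (chk TL 504 5) (bas 0) 19 (TL.drop 151) = true := by decide +kernel

theorem k_0_170 : lpn (chk TL 504 5) (bas 0) 9 (TL.drop 170) = true := by decide +kernel

theorem k_0_179 : lpn (chk TL 504 5) (bas 0) 16 (TL.drop 179) = true := by decide +kernel

end Pool.Agent.H16.FW
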