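import Pool.Agent.H16.FW.Tab

/-!
# PROJECT FW: kernel check, part 5
-/

set_option autoImplicit false

namespace Pool.Agent.H16.FW

theorem k_0_216 : lpn (chk TL 504 5) (bas 0) 5 (TL.drop 216) = true := by decide +kernel

theorem k_0_221 : lpn (chk TL 504 5) (bas 0) 5 (TL.drop 221) = true := by decide +kernel

theorem k_0_226 : lpn (chk TL 504 5) (bas 0) 9 (TL.drop 226) = true := by decide +kernel

end Pool.Agent.H16.FW
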