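import Pool.Agent.H16.FW.Tab

/-!
# PROJECT FW: kernel check, part 8
-/

set_option autoImplicit false

namespace Pool.Agent.H16.FW

theorem k_0_313 : lpn (chk TL 504 5) (bas 0) 10 (TL.drop 313) = true := by decide +kernel

theorem k_0_323 : lpn (chk TL 504 5) (bas 0) 10 (TL.drop 323) = true := by decide +kernel

theorem k_0_333 : lpn (chk TL 504 5) (bas 0) 12 (TL.drop 333) = true := by decide +kernel

end Pool.Agent.H16.FW
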