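import Pool.Agent.H16.FW.Tab

/-!
# PROJECT FW: kernel check, part 9
-/

set_option autoImplicit false

namespace Pool.Agent.H16.FW

theorem k_0_345 : lpn (chk TL 504 5) (bas 0) 8 (TL.drop 345) = true := by decide +kernel

theorem k_0_353 : lpn (chk TL 504 5) (bas 0) 6 (TL.drop 353) = true := by decide +kernel

theorem k_0_359 : lpn (chk TL 504 5) (bas 0) 6 (TL.drop 359) = true := by decide +kernel

end Pool.Agent.H16.FW
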